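import Mathlib
import Pool.Agent.H22.LongR

set_option autoImplicit false
open MeasureTheory ProbabilityTheory

namespace Pool.Agent.Results.MP_9aa340_pr.Finite

/-- Law of the edge multiplicities: independent Poisson variables with mean `lam * μ (g⁻¹ h)` for
the unordered pair `{g, h}` (for symmetric `μ` the order of the chosen representative is
irrelevant). -/
noncomputable def law {Γ : Type} [Group Γ] (μ : Γ → NNReal) (lam : NNReal) :
    Measure (Sym2 Γ → ℕ) :=
  Measure.infinitePi (fun e : Sym2 Γ =>
    poissonMeasure (lam * μ ((Quot.out e).1⁻¹ * (Quot.out e).2)))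

/-- The graph in which distinct `g, h` are adjacent when at least one edge joins them. -/
def graph {Γ : Type} (ω : Sym2 Γ → ℕ) : SimpleGraph Γ := SimpleGraph.fromEdgeSet {e | ω e ≠ 0}

/-- The critical parameter `λ_c(μ)`. -/
noncomputable def lamc {Γ : Type} [Group Γ] (μ : Γ → NNReal) : ENNReal :=
  ⨆ (lam : NNReal) (_ : 0 < lam)
    (_ : law μ lam {ω | ∃ c : (graph ω).ConnectedComponent, c.supp.Infinite} = 0), (lam : ENNReal)

/-- Every countably infinite group carries a generating measure with finite critical parameter. -/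
theorem result (Γ : Type) [Group Γ] [Countable Γ] [Infinite Γ] :
    ∃ μ : Γ → NNReal, HasSum μ 1 ∧ (∀ g, μ g = μ g⁻¹) ∧
      Subgroup.closure (Function.support μ) = ⊤ ∧ lamc μ < ⊤ := by
  obtain ⟨μ, l0, h1, h2, h3, h4⟩ := Pool.Agent.H22.LongR.main (Γ := Γ)
  refine ⟨μ, h1, fun g => (h2 g).symm, ?_, ?_⟩
  · rw [Function.support_eq_univ h3, Subgroup.closure_univ]
  · refine lt_of_le_of_lt (b := (l0 : ENNReal)) (iSup_le fun lam => iSup₂_le fun _ h => ?_)
      ENNReal.coe_lt_top
    by_contra hl
    exact h4 lam (by exact_mod_cast (not_le.1 hl).le) h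

end Pool.Agent.Results.MP_9aa340_pr.Finite
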